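import Pool.Agent.Helper44.CM.StmtsB5

/-!
# Project MM, block B5, row LOCSUP
-/

open MeasureTheory

namespace Helper54.MM

open CM

theorem st_LOCSUP : ST_LOCSUP := by
  intro n R s hs
  set m0 : ℝ := Real.exp (-((|R| + s) ^ 2 / 2)) with hm0
  set v0 : ℝ := (volume : Measure (E n)).real (Metric.ball (0 : E n) s) with hv0
  have hm0p : 0 < m0 := Real.exp_pos _
  have hv0p : 0 < v0 := by
    rw [hv0, Measure.real]
    exact ENNReal.toReal_pos (Metric.measure_ball_pos _ _ hs).ne' measure_ball_lt_top.ne
  have hmv : 0 < m0 * v0 := mul_pos hm0p hv0p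
  refine ⟨1 / Real.sqrt (m0 * v0), ?_⟩
  intro f M N hN hf hint hle x hx
  have hM : 0 ≤ M := le_trans (abs_nonneg _) (hf.1 x)
  have hsq : 0 < Real.sqrt (m0 * v0) := Real.sqrt_pos.2 hmv
  by_cases hcase : |f x| ≤ M * Real.sqrt s
  · have h1 : 0 ≤ 1 / Real.sqrt (m0 * v0) * N := by positivity
    linarith
  · push Not at hcase
    set a : ℝ := |f x| - M * Real.sqrt s with ha
    have hap : 0 < a := by rw [ha]; linarith
    -- lower bound on the ball
    have hlow : ∀ y ∈ Metric.ball x s, a ^ 2 * m0 ≤ f y ^ 2 * Real.exp (- qn y) := by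
      intro y hy
      have hd : dist x y < s := by rw [dist_comm]; exact hy
      have h1 : |f x - f y| ≤ M * Real.sqrt s :=
        (hf.2 x y).trans (mul_le_mul_of_nonneg_left (Real.sqrt_le_sqrt hd.le) hM)
      have h2 : |f x| ≤ |f x - f y| + |f y| := by
        have := abs_add_le (f x - f y) (f y)
        simpa using this
      have h3 : a ≤ |f y| := by rw [ha]; linarith
      have h4 : a ^ 2 ≤ f y ^ 2 := by
        rw [← sq_abs (f y)]
        exact pow_le_pow_left₀ hap.le h3 2
      have h5 : ‖y‖ ≤ |R| + s := by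
        have h51 : ‖y‖ ≤ ‖x‖ + dist x y := by
          have h52 := norm_le_norm_add_norm_sub' y x
          rw [dist_eq_norm, norm_sub_rev]
          linarith
        have h53 : ‖x‖ ≤ |R| := hx.trans (le_abs_self R)
        linarith
      have h6 : m0 ≤ Real.exp (- qn y) := by
        rw [hm0]
        apply Real.exp_le_exp.2
        have h61 : ‖y‖ ^ 2 ≤ (|R| + s) ^ 2 := pow_le_pow_left₀ (norm_nonneg y) h5 2
        unfold qn
        linarith
      exact mul_le_mul h4 h6 hm0p.le (sq_nonneg _)
    have hballm : MeasurableSet (Metric.ball x s) := Metric.isOpen_ball.measurableSet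
    have hvol : (volume : Measure (E n)).real (Metric.ball x s) = v0 := by
      rw [hv0, Measure.real, Measure.real]
      congr 1
      exact Measure.addHaar_ball_center _ _ _
    have h7 : a ^ 2 * m0 * v0 ≤ N ^ 2 := by
      calc a ^ 2 * m0 * v0 = ∫ y in Metric.ball x s, a ^ 2 * m0 := by
            rw [setIntegral_const, smul_eq_mul, hvol]; ring
        _ ≤ ∫ y in Metric.ball x s, f y ^ 2 * Real.exp (- qn y) := by
            refine setIntegral_mono_on ?_ hint.integrableOn hballm hlow
            exact integrableOn_const (measure_ball_lt_top).ne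
        _ ≤ ∫ y, f y ^ 2 * Real.exp (- qn y) := by
            refine setIntegral_le_integral hint ?_
            exact Filter.Eventually.of_forall fun y =>
              mul_nonneg (sq_nonneg _) (Real.exp_pos _).le
        _ ≤ N ^ 2 := hle
    have h8 : a * Real.sqrt (m0 * v0) ≤ N := by
      have h81 : (a * Real.sqrt (m0 * v0)) ^ 2 ≤ N ^ 2 := by
        rw [mul_pow, Real.sq_sqrt hmv.le]; linarith
      exact (pow_le_pow_iff_left₀ (by positivity) hN (by norm_num)).1 h81
    have h9 : a ≤ 1 / Real.sqrt (m0 * v0) * N := by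
      rw [div_mul_eq_mul_div, one_mul, le_div_iff₀ hsq]; exact h8
    rw [ha] at h9
    linarith

end Helper54.MM
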